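import Pool.Agent.helper78.TQ6.Word

set_option autoImplicit false

/-!
# Two classes, each greedily three-coloured: a sufficient condition for six colours

`WG n p` is the word graph.  `s` is a partition of the vertices into two classes, `ρ` a monotone
row function.  Orient an edge `u < w` from `w` to `u` iff `w ≤ p u` and `ρ w = ρ u`, or `p u < w`
and `ρ w ≤ ρ u + 1`; otherwise from `u` to `w`.  If every vertex has at most two out-neighbours of
its own class, then six colours suffice.
-/

namespace Pool.Agent.helper34.TQ6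

open Pool.Agent.helper78.TQ6 (Ew WG)

/-- a unit interval representation of the word -/
theorem exists_alpha {p : ℕ → ℕ} (hp : Monotone p) (N : ℕ) :
    ∃ α : ℕ → ℚ, ∀ u w, u < w → w ≤ N →
      α u < α w ∧ (w ≤ p u → α w < α u + 1) ∧ (p u < w → α u + 1 < α w) := by
  induction N with
  | zero => exact ⟨fun _ => 0, fun u w h1 h2 => by omega⟩
  | succ N ih =>
    obtain ⟨α, hα⟩ := ih
    obtain ⟨m, hm1, hm2⟩ := Order.exists_between_finsets
      (insert (α N) (((Finset.range (N + 1)).filter (fun u => p u < N + 1)).image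
        (fun u => α u + 1)))
      (((Finset.range (N + 1)).filter (fun u => N + 1 ≤ p u)).image (fun u => α u + 1)) (by
        intro x hx y hy
        rw [Finset.mem_image] at hy
        obtain ⟨v, hv, rfl⟩ := hy
        rw [Finset.mem_filter, Finset.mem_range] at hv
        rw [Finset.mem_insert, Finset.mem_image] at hx
        rcases hx with hx | ⟨u, hu, rfl⟩
        · rw [hx]
          rcases Nat.eq_or_lt_of_le (Nat.lt_succ_iff.1 hv.1) with h | h
          · rw [h]
            linarith
          · exact (hα v N h le_rfl).2.1 (by omega)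
        · rw [Finset.mem_filter, Finset.mem_range] at hu
          have huv : u < v := by
            by_contra h
            have := hp (not_lt.1 h)
            omega
          have := (hα u v huv (by omega)).1
          linarith)
    have hN : α N < m := hm1 _ (Finset.mem_insert_self _ _)
    refine ⟨fun v => if v = N + 1 then m else α v, ?_⟩
    intro u w huw hw
    have hu : u ≠ N + 1 := by omega
    simp only [hu, if_false]
    by_cases hw' : w = N + 1
    · subst hw'
      simp only [if_true]
      refine ⟨?_, fun h => ?_, fun h => ?_⟩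
      · rcases Nat.eq_or_lt_of_le (Nat.lt_succ_iff.1 huw) with h | h
        · rw [h]
          exact hN
        · exact (hα u N h le_rfl).1.trans hN
      · exact hm2 _ (Finset.mem_image.2 ⟨u, Finset.mem_filter.2 ⟨Finset.mem_range.2 huw, h⟩, rfl⟩)
      · exact hm1 _ (Finset.mem_insert_of_mem
          (Finset.mem_image.2 ⟨u, Finset.mem_filter.2 ⟨Finset.mem_range.2 huw, h⟩, rfl⟩))
    · simp only [hw', if_false]
      exact hα u w huw (by omega)

/-- the arc from `w` to `u` (for `u < w`) -/
def Down (p ρ : ℕ → ℕ) (u w : ℕ) : Prop :=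
  (w ≤ p u ∧ ρ w = ρ u) ∨ (p u < w ∧ ρ w ≤ ρ u + 1)

/-- the out-neighbours of `v`: adjacency and arc -/
def Out (p ρ : ℕ → ℕ) (v u : ℕ) : Prop :=
  (Ew p u v ∧ Down p ρ u v) ∨ (Ew p v u ∧ ¬ Down p ρ v u)

/-- three-colouring of one class, colouring along a height function -/
theorem greedy3 {V : Type} [Finite V] (β : V → ℚ) (O : V → V → Prop)
    (hO : ∀ v, ∃ F : Finset V, F.card ≤ 2 ∧ ∀ u, O v u → β u < β v → u ∈ F) :
    ∃ c : V → Fin 3, ∀ v u, O v u → β u < β v → c v ≠ c u := by
  classical
  have : IsTrans V (fun u v : V => β u < β v) := ⟨fun _ _ _ h1 h2 => lt_trans h1 h2⟩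
  have : Std.Irrefl (fun u v : V => β u < β v) := ⟨fun _ h => lt_irrefl _ h⟩
  have hwf : WellFounded (fun u v : V => β u < β v) :=
    Finite.wellFounded_of_trans_of_irrefl _
  have hstep : ∀ v (g : ∀ u, β u < β v → Fin 3), ∃ x : Fin 3,
      ∀ u (h : β u < β v), O v u → x ≠ g u h := by
    intro v g
    obtain ⟨F, hF, hF2⟩ := hO v
    have h1 : (F.image (fun u => if h : β u < β v then g u h else 0)).card < 3 :=
      lt_of_le_of_lt Finset.card_image_le (by omega)
    obtain ⟨x, hx⟩ : ∃ x, x ∉ F.image (fun u => if h : β u < β v then g u h else 0) := by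
      by_contra h
      push Not at h
      have h3 : (Finset.univ : Finset (Fin 3)) ⊆
          F.image (fun u => if h : β u < β v then g u h else 0) := fun x _ => h x
      have h4 := Finset.card_le_card h3
      rw [Finset.card_univ, Fintype.card_fin] at h4
      omega
    refine ⟨x, fun u h ho he => hx ?_⟩
    rw [Finset.mem_image]
    exact ⟨u, hF2 u ho h, by rw [dif_pos h, he]⟩
  choose C hC using hstep
  refine ⟨hwf.fix C, fun v u ho hlt => ?_⟩
  rw [hwf.fix_eq]
  exact hC v _ u hlt ho

/-- the sufficient condition, the two classes may have different row functions, and these are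
arbitrary monotone functions -/
theorem suff2 {n : ℕ} {p : ℕ → ℕ} (hp : Monotone p) (hlow : ∀ x, x + 1 ≤ p x)
    (s : ℕ → Bool) (ρ : Bool → ℕ → ℕ) (hρ : ∀ b, Monotone (ρ b))
    (hc : ∀ v, v < n → ∃ F : Finset ℕ, F.card ≤ 2 ∧
      ∀ u, u < n → Out p (ρ (s v)) v u → s u = s v → u ∈ F) :
    (WG n p).Colorable 6 := by
  classical
  obtain ⟨α, hα⟩ := exists_alpha hp n
  have hβ : ∀ u w, u < w → w < n → s u = s w → Ew p u w →
      (Down p (ρ (s u)) u w → α u - ρ (s u) u < α w - ρ (s w) w) ∧
      (¬ Down p (ρ (s u)) u w → α w - ρ (s w) w < α u - ρ (s u) u) := by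
    intro u w huw hw hs hE
    rw [← hs]
    obtain ⟨a1, a2, a3⟩ := hα u w huw hw.le
    have hm : ρ (s u) u ≤ ρ (s u) w := hρ _ huw.le
    have hE2 : w ≤ p (u + 1) := by
      rcases hE.2 with h | h
      · have := hlow (u + 1)
        omega
      · exact h.2
    refine ⟨fun h => ?_, fun h => ?_⟩
    · rcases h with ⟨_, h⟩ | ⟨h, h'⟩
      · rw [h]
        linarith
      · have := a3 h
        have h'' : (ρ (s u) w : ℚ) ≤ ρ (s u) u + 1 := by exact_mod_cast h'
        linarith
    · by_cases hwp : w ≤ p u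
      · have h3 : ρ (s u) u + 1 ≤ ρ (s u) w := by
          have h5 : ρ (s u) w ≠ ρ (s u) u := fun h' => h (Or.inl ⟨hwp, h'⟩)
          omega
        have := a2 hwp
        have h3' : (ρ (s u) u : ℚ) + 1 ≤ ρ (s u) w := by exact_mod_cast h3
        linarith
      · push Not at hwp
        have h3 : ρ (s u) u + 2 ≤ ρ (s u) w := by
          have h5 : ¬ ρ (s u) w ≤ ρ (s u) u + 1 := fun h' => h (Or.inr ⟨hwp, h'⟩)
          omega
        have h6 : u + 1 < w := by
          have := hlow u
          omega
        have h7 := (hα (u + 1) w h6 hw.le).2.1 hE2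
        have h8 := (hα u (u + 1) (Nat.lt_succ_self u) (by omega)).2.1 (hlow u)
        have h3' : (ρ (s u) u : ℚ) + 2 ≤ ρ (s u) w := by exact_mod_cast h3
        linarith
  obtain ⟨c, hcc⟩ := greedy3 (V := Fin n) (fun v => α v - ρ (s v) v)
    (fun v u => Out p (ρ (s v)) v u ∧ s u = s v) (by
      intro v
      obtain ⟨F, hF, hF2⟩ := hc v v.isLt
      refine ⟨Finset.univ.filter (fun u : Fin n => u.val ∈ F), ?_, ?_⟩
      · refine le_trans ?_ hF
        rw [← Finset.card_map Fin.valEmbedding]
        refine Finset.card_le_card ?_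
        intro t ht
        rw [Finset.mem_map] at ht
        obtain ⟨u, hu, rfl⟩ := ht
        exact (Finset.mem_filter.1 hu).2
      · rintro u ⟨h3, h4⟩ _
        exact Finset.mem_filter.2 ⟨Finset.mem_univ _, hF2 u u.isLt h3 h4⟩)
  refine ⟨SimpleGraph.Coloring.mk
    (fun v : Fin n => (finProdFinEquiv (⟨if s v then 1 else 0, by split_ifs <;> omega⟩, c v) :
      Fin (2 * 3))) ?_⟩
  have key : ∀ u w : Fin n, Ew p u w →
      (finProdFinEquiv ((⟨if s u then 1 else 0, by split_ifs <;> omega⟩ : Fin 2), c u) :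
        Fin (2 * 3)) ≠
      finProdFinEquiv ((⟨if s w then 1 else 0, by split_ifs <;> omega⟩ : Fin 2), c w) := by
    intro u w hE h
    have h3 := finProdFinEquiv.injective h
    rw [Prod.mk.injEq] at h3
    obtain ⟨h4, h5⟩ := h3
    have hs : s u = s w := by
      rw [Fin.mk.injEq] at h4
      cases h6 : s u <;> cases h7 : s w <;> simp_all
    obtain ⟨h8, h9⟩ := hβ u w hE.1 w.isLt hs hE
    by_cases hD : Down p (ρ (s u)) u w
    · exact hcc w u ⟨Or.inl ⟨hE, by rw [← hs]; exact hD⟩, hs⟩ (h8 hD) h5.symm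
    · exact hcc u w ⟨Or.inr ⟨hE, hD⟩, hs.symm⟩ (h9 hD) h5
  intro u w hadj
  rcases hadj with h | h
  · exact key u w h
  · exact (key w u h).symm

/-- the sufficient condition -/
theorem suff {n : ℕ} {p : ℕ → ℕ} (hp : Monotone p) (hlow : ∀ x, x + 1 ≤ p x)
    (s : ℕ → Bool) (ρ : ℕ → ℕ) (hρ : Monotone ρ)
    (hc : ∀ v, v < n → ∃ F : Finset ℕ, F.card ≤ 2 ∧
      ∀ u, u < n → Out p ρ v u → s u = s v → u ∈ F) :
    (WG n p).Colorable 6 :=
  suff2 hp hlow s (fun _ => ρ) (fun _ => hρ) hc

end Pool.Agent.helper34.TQ6
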