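import Pool.Agent.helper34.TQ6.Suff

set_option autoImplicit false

/-!
# One independent set and a five-coloured rest

`WG n p` is the word graph.  `R` is an independent set (colour 6), `ρ` a monotone row function.
With the orientation of `Suff.lean`, if every vertex outside `R` has at most four out-neighbours
outside `R`, then six colours suffice.
-/

namespace Pool.Agent.helper34.TQ6

open Pool.Agent.helper78.TQ6 (Ew WG)

/-- the height function of a row function: adjacent vertices have different heights, and the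
out-neighbours are the lower ones -/
theorem exists_beta {n : ℕ} {p : ℕ → ℕ} (hp : Monotone p) (hlow : ∀ x, x + 1 ≤ p x)
    (ρ : ℕ → ℕ) (hρ : Monotone ρ) :
    ∃ β : ℕ → ℚ, ∀ u w, u < n → w < n → (Ew p u w ∨ Ew p w u) →
      β u ≠ β w ∧ (β w < β u → Out p ρ u w) := by
  obtain ⟨α, hα⟩ := exists_alpha hp n
  have hβ : ∀ u w, w < n → Ew p u w →
      (Down p ρ u w → α u - ρ u < α w - ρ w) ∧ (¬ Down p ρ u w → α w - ρ w < α u - ρ u) := by
    intro u w hw hE
    have huw := hE.1
    obtain ⟨a1, a2, a3⟩ := hα u w huw hw.le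
    have hm : ρ u ≤ ρ w := hρ huw.le
    have hE2 : w ≤ p (u + 1) := by
      rcases hE.2 with h | h
      · have := hlow (u + 1)
        omega
      · exact h.2
    refine ⟨fun h => ?_, fun h => ?_⟩
    · rcases h with ⟨_, h⟩ | ⟨h, h'⟩
      · rw [h]
        linarith
      · have := a3 h
        have h'' : (ρ w : ℚ) ≤ ρ u + 1 := by exact_mod_cast h'
        linarith
    · by_cases hwp : w ≤ p u
      · have h3 : ρ u + 1 ≤ ρ w := by
          have h5 : ρ w ≠ ρ u := fun h' => h (Or.inl ⟨hwp, h'⟩)
          omega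
        have := a2 hwp
        have h3' : (ρ u : ℚ) + 1 ≤ ρ w := by exact_mod_cast h3
        linarith
      · push Not at hwp
        have h3 : ρ u + 2 ≤ ρ w := by
          have h5 : ¬ ρ w ≤ ρ u + 1 := fun h' => h (Or.inr ⟨hwp, h'⟩)
          omega
        have h6 : u + 1 < w := by
          have := hlow u
          omega
        have h7 := (hα (u + 1) w h6 hw.le).2.1 hE2
        have h8 := (hα u (u + 1) (Nat.lt_succ_self u) (by omega)).2.1 (hlow u)
        have h3' : (ρ u : ℚ) + 2 ≤ ρ w := by exact_mod_cast h3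
        linarith
  refine ⟨fun v => α v - ρ v, fun u w hu hw hE => ?_⟩
  rcases hE with hE | hE
  · obtain ⟨h1, h2⟩ := hβ u w hw hE
    by_cases hD : Down p ρ u w
    · exact ⟨(h1 hD).ne, fun h => absurd h (not_lt.2 (h1 hD).le)⟩
    · exact ⟨(h2 hD).ne', fun _ => Or.inr ⟨hE, hD⟩⟩
  · obtain ⟨h1, h2⟩ := hβ w u hu hE
    by_cases hD : Down p ρ w u
    · exact ⟨(h1 hD).ne', fun _ => Or.inl ⟨hE, hD⟩⟩
    · exact ⟨(h2 hD).ne, fun h => absurd h (not_lt.2 (h2 hD).le)⟩

/-- greedy colouring along a height function -/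
theorem greedyK {V : Type} [Finite V] (k : ℕ) (β : V → ℚ) (O : V → V → Prop)
    (hO : ∀ v, ∃ F : Finset V, F.card ≤ k ∧ ∀ u, O v u → β u < β v → u ∈ F) :
    ∃ c : V → Fin (k + 1), ∀ v u, O v u → β u < β v → c v ≠ c u := by
  classical
  have : IsTrans V (fun u v : V => β u < β v) := ⟨fun _ _ _ h1 h2 => lt_trans h1 h2⟩
  have : Std.Irrefl (fun u v : V => β u < β v) := ⟨fun _ h => lt_irrefl _ h⟩
  have hwf : WellFounded (fun u v : V => β u < β v) :=
    Finite.wellFounded_of_trans_of_irrefl _
  have hstep : ∀ v (g : ∀ u, β u < β v → Fin (k + 1)), ∃ x : Fin (k + 1),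
      ∀ u (h : β u < β v), O v u → x ≠ g u h := by
    intro v g
    obtain ⟨F, hF, hF2⟩ := hO v
    have h1 : (F.image (fun u => if h : β u < β v then g u h else 0)).card < k + 1 :=
      lt_of_le_of_lt Finset.card_image_le (by omega)
    obtain ⟨x, hx⟩ : ∃ x, x ∉ F.image (fun u => if h : β u < β v then g u h else 0) := by
      by_contra h
      push Not at h
      have h3 : (Finset.univ : Finset (Fin (k + 1))) ⊆
          F.image (fun u => if h : β u < β v then g u h else 0) := fun x _ => h x
      have h4 := Finset.card_le_card h3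
      rw [Finset.card_univ, Fintype.card_fin] at h4
      omega
    refine ⟨x, fun u h ho he => hx ?_⟩
    rw [Finset.mem_image]
    exact ⟨u, hF2 u ho h, by rw [dif_pos h, he]⟩
  choose C hC using hstep
  refine ⟨hwf.fix C, fun v u ho hlt => ?_⟩
  rw [hwf.fix_eq]
  exact hC v _ u hlt ho

/-- one independent set `R`, the rest is four-degenerate along the rows -/
theorem suff1 {n : ℕ} {p : ℕ → ℕ} (hp : Monotone p) (hlow : ∀ x, x + 1 ≤ p x)
    (R : ℕ → Bool) (ρ : ℕ → ℕ) (hρ : Monotone ρ)
    (hR : ∀ u w, w < n → Ew p u w → R u = true → R w = false)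
    (hc : ∀ v, v < n → R v = false → ∃ F : Finset ℕ, F.card ≤ 4 ∧
      ∀ u, u < n → Out p ρ v u → R u = false → u ∈ F) :
    (WG n p).Colorable 6 := by
  classical
  obtain ⟨β, hβ⟩ := exists_beta (n := n) hp hlow ρ hρ
  obtain ⟨c, hcc⟩ := greedyK (V := Fin n) 4 (fun v => β v)
    (fun v u => (Ew p v u ∨ Ew p u v) ∧ R v = false ∧ R u = false) (by
      intro v
      by_cases hv : R v = false
      · obtain ⟨F, hF, hF2⟩ := hc v v.isLt hv
        refine ⟨Finset.univ.filter (fun u : Fin n => u.val ∈ F), ?_, ?_⟩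
        · refine le_trans ?_ hF
          rw [← Finset.card_map Fin.valEmbedding]
          refine Finset.card_le_card ?_
          intro t ht
          rw [Finset.mem_map] at ht
          obtain ⟨u, hu, rfl⟩ := ht
          exact (Finset.mem_filter.1 hu).2
        · rintro u ⟨h3, _, h4⟩ hlt
          exact Finset.mem_filter.2 ⟨Finset.mem_univ _,
            hF2 u u.isLt ((hβ v u v.isLt u.isLt h3).2 hlt) h4⟩
      · exact ⟨∅, by simp, fun u h _ => absurd h.2.1 hv⟩)
  refine ⟨SimpleGraph.Coloring.mk
    (fun v : Fin n => if R v = true then (5 : Fin 6) else (c v).castSucc) ?_⟩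
  have key : ∀ u w : Fin n, Ew p u w →
      (if R u = true then (5 : Fin 6) else (c u).castSucc) ≠
      (if R w = true then (5 : Fin 6) else (c w).castSucc) := by
    intro u w hE
    have h5 : ∀ x : Fin 5, x.castSucc ≠ (5 : Fin 6) := fun x h => by
      have h1 := congrArg Fin.val h
      have h2 : ((5 : Fin 6) : ℕ) = 5 := rfl
      rw [Fin.val_castSucc, h2] at h1
      omega
    by_cases hu : R u = true
    · have hw := hR u w w.isLt hE hu
      rw [if_pos hu, if_neg (by rw [hw]; exact Bool.false_ne_true)]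
      exact fun h => h5 _ h.symm
    · by_cases hw : R w = true
      · rw [if_neg hu, if_pos hw]
        exact h5 _
      · rw [if_neg hu, if_neg hw]
        intro h
        have h1 : c u = c w := Fin.castSucc_injective _ h
        have hu' : R u = false := by simpa using hu
        have hw' : R w = false := by simpa using hw
        rcases lt_or_gt_of_ne (hβ u w u.isLt w.isLt (Or.inl hE)).1 with h2 | h2
        · exact hcc w u ⟨Or.inr hE, hw', hu'⟩ h2 h1.symm
        · exact hcc u w ⟨Or.inl hE, hu', hw'⟩ h2 h1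
  intro u w hadj
  rcases hadj with h | h
  · exact key u w h
  · exact (key w u h).symm

end Pool.Agent.helper34.TQ6
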