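import Pool.Agent.helper94.TQ6.SuffL

set_option autoImplicit false

/-!
# Sufficient condition with a free threshold function

As `suffL`, but the arcs are defined with an arbitrary monotone threshold function `g` in place of
`p`: the edge `u < w` is oriented from `w` to `u` iff `w ≤ g u` and `ρ w = ρ u`, or `g u < w` and
`ρ w ≤ ρ u + 1`.  The only condition: if `g u < w` and `ρ u + 2 ≤ ρ w`, then `w ≤ g (g u + 1)`.
-/

namespace Pool.Agent.helper34.TQ6

open Pool.Agent.helper78.TQ6 (Ew WG)

/-- a representation with control of the comparison with two turns -/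
theorem exists_alpha2 {g : ℕ → ℕ} (hg : Monotone g) (N : ℕ) :
    ∃ α : ℕ → ℚ, ∀ u w, u < w → w ≤ N →
      α u < α w ∧ (w ≤ g u → α w < α u + 1) ∧ (g u < w → α u + 1 < α w) ∧
        (w ≤ g (g u + 1) → α w < α u + 2) := by
  induction N with
  | zero => exact ⟨fun _ => 0, fun u w h1 h2 => by omega⟩
  | succ N ih =>
    obtain ⟨α, hα⟩ := ih
    obtain ⟨m, hm1, hm2⟩ := Order.exists_between_finsets
      (insert (α N) (((Finset.range (N + 1)).filter (fun u => g u < N + 1)).image
        (fun u => α u + 1)))
      ((((Finset.range (N + 1)).filter (fun u => N + 1 ≤ g u)).image (fun u => α u + 1)) ∪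
        (((Finset.range (N + 1)).filter (fun u => N + 1 ≤ g (g u + 1))).image
          (fun u => α u + 2))) (by
        intro x hx y hy
        rw [Finset.mem_union] at hy
        rw [Finset.mem_insert, Finset.mem_image] at hx
        rcases hy with hy | hy
        · rw [Finset.mem_image] at hy
          obtain ⟨v, hv, rfl⟩ := hy
          rw [Finset.mem_filter, Finset.mem_range] at hv
          rcases hx with hx | ⟨u, hu, rfl⟩
          · rw [hx]
            rcases Nat.eq_or_lt_of_le (Nat.lt_succ_iff.1 hv.1) with h | h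
            · rw [h]
              linarith
            · exact (hα v N h le_rfl).2.1 (by omega)
          · rw [Finset.mem_filter, Finset.mem_range] at hu
            have huv : u < v := by
              by_contra h
              have := hg (not_lt.1 h)
              omega
            have := (hα u v huv (by omega)).1
            linarith
        · rw [Finset.mem_image] at hy
          obtain ⟨v, hv, rfl⟩ := hy
          rw [Finset.mem_filter, Finset.mem_range] at hv
          rcases hx with hx | ⟨u, hu, rfl⟩
          · rw [hx]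
            rcases Nat.eq_or_lt_of_le (Nat.lt_succ_iff.1 hv.1) with h | h
            · rw [h]
              linarith
            · exact (hα v N h le_rfl).2.2.2 (by omega)
          · rw [Finset.mem_filter, Finset.mem_range] at hu
            have huv : u ≤ g v := by
              by_contra h
              have h5 : g v + 1 ≤ u := by omega
              have := hg h5
              omega
            have h3 : α u < α v + 1 := by
              rcases lt_or_ge v u with h | h
              · exact (hα v u h (by omega)).2.1 huv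
              · rcases Nat.eq_or_lt_of_le h with h' | h'
                · rw [h']
                  linarith
                · have := (hα u v h' (by omega)).1
                  linarith
            linarith)
    have hN : α N < m := hm1 _ (Finset.mem_insert_self _ _)
    refine ⟨fun v => if v = N + 1 then m else α v, ?_⟩
    intro u w huw hw
    have hu : u ≠ N + 1 := by omega
    simp only [hu, if_false]
    by_cases hw' : w = N + 1
    · subst hw'
      simp only [if_true]
      refine ⟨?_, fun h => ?_, fun h => ?_, fun h => ?_⟩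
      · rcases Nat.eq_or_lt_of_le (Nat.lt_succ_iff.1 huw) with h | h
        · rw [h]
          exact hN
        · exact (hα u N h le_rfl).1.trans hN
      · exact hm2 _ (Finset.mem_union_left _ (Finset.mem_image.2
          ⟨u, Finset.mem_filter.2 ⟨Finset.mem_range.2 huw, h⟩, rfl⟩))
      · exact hm1 _ (Finset.mem_insert_of_mem
          (Finset.mem_image.2 ⟨u, Finset.mem_filter.2 ⟨Finset.mem_range.2 huw, h⟩, rfl⟩))
      · exact hm2 _ (Finset.mem_union_right _ (Finset.mem_image.2
          ⟨u, Finset.mem_filter.2 ⟨Finset.mem_range.2 huw, h⟩, rfl⟩))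
    · simp only [hw', if_false]
      exact hα u w huw (by omega)

/-- the out-neighbours of `v` for the threshold function `g` -/
def OutG (p g ρ : ℕ → ℕ) (v u : ℕ) : Prop :=
  (Ew p u v ∧ Down g ρ u v) ∨ (Ew p v u ∧ ¬ Down g ρ v u)

/-- the height function: adjacent vertices have different heights, and the out-neighbours are the
lower ones -/
theorem exists_betaG {n : ℕ} {p g : ℕ → ℕ} (hg : Monotone g) (ρ : ℕ → ℕ) (hρ : Monotone ρ)
    (h2 : ∀ u w, w < n → Ew p u w → g u < w → ρ u + 2 ≤ ρ w → w ≤ g (g u + 1)) :
    ∃ β : ℕ → ℚ, ∀ u w, u < n → w < n → (Ew p u w ∨ Ew p w u) →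
      β u ≠ β w ∧ (β w < β u → OutG p g ρ u w) := by
  obtain ⟨α, hα⟩ := exists_alpha2 hg n
  have hβ : ∀ u w, w < n → Ew p u w →
      (Down g ρ u w → α u - ρ u < α w - ρ w) ∧ (¬ Down g ρ u w → α w - ρ w < α u - ρ u) := by
    intro u w hw hE
    have huw := hE.1
    obtain ⟨a1, a2, a3, a4⟩ := hα u w huw hw.le
    have hm : ρ u ≤ ρ w := hρ huw.le
    refine ⟨fun h => ?_, fun h => ?_⟩
    · rcases h with ⟨_, h⟩ | ⟨h, h'⟩
      · rw [h]
        linarith
      · have := a3 h
        have h'' : (ρ w : ℚ) ≤ ρ u + 1 := by exact_mod_cast h'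
        linarith
    · by_cases hwp : w ≤ g u
      · have h3 : ρ u + 1 ≤ ρ w := by
          have h5 : ρ w ≠ ρ u := fun h' => h (Or.inl ⟨hwp, h'⟩)
          omega
        have := a2 hwp
        have h3' : (ρ u : ℚ) + 1 ≤ ρ w := by exact_mod_cast h3
        linarith
      · push Not at hwp
        have h3 : ρ u + 2 ≤ ρ w := by
          have h5 : ¬ ρ w ≤ ρ u + 1 := fun h' => h (Or.inr ⟨hwp, h'⟩)
          omega
        have := a4 (h2 u w hw hE hwp h3)
        have h3' : (ρ u : ℚ) + 2 ≤ ρ w := by exact_mod_cast h3
        linarith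
  refine ⟨fun v => α v - ρ v, fun u w hu hw hE => ?_⟩
  rcases hE with hE | hE
  · obtain ⟨h1, h2⟩ := hβ u w hw hE
    by_cases hD : Down g ρ u w
    · exact ⟨(h1 hD).ne, fun h => absurd h (not_lt.2 (h1 hD).le)⟩
    · exact ⟨(h2 hD).ne', fun _ => Or.inr ⟨hE, hD⟩⟩
  · obtain ⟨h1, h2⟩ := hβ w u hu hE
    by_cases hD : Down g ρ w u
    · exact ⟨(h1 hD).ne', fun _ => Or.inl ⟨hE, hD⟩⟩
    · exact ⟨(h2 hD).ne, fun h => absurd h (not_lt.2 (h2 hD).le)⟩

/-- sufficient condition for six colours: labels `L`, a row function `ρ` and a threshold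
function `g` -/
theorem suffLG {n : ℕ} {p g : ℕ → ℕ} (hg : Monotone g)
    (L : ℕ → Option (Fin 6)) (ρ : ℕ → ℕ) (hρ : Monotone ρ)
    (h2 : ∀ u w, w < n → Ew p u w → g u < w → ρ u + 2 ≤ ρ w → w ≤ g (g u + 1))
    (hL : ∀ u w c, w < n → Ew p u w → L u = some c → L w ≠ some c)
    (hc : ∀ v, v < n → L v = none → ∃ (F : Finset ℕ) (C : Finset (Fin 6)), F.card + C.card ≤ 5 ∧
      (∀ u, u < n → OutG p g ρ v u → L u = none → u ∈ F) ∧
      (∀ u c, u < n → (Ew p u v ∨ Ew p v u) → L u = some c → c ∈ C)) :
    (WG n p).Colorable 6 := by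
  classical
  obtain ⟨β, hβ⟩ := exists_betaG (n := n) (p := p) hg ρ hρ h2
  have hch : ∀ v : Fin n, ∃ (F : Finset ℕ) (C : Finset (Fin 6)), F.card + C.card ≤ 5 ∧
      (∀ u, u < n → L v = none → OutG p g ρ v u → L u = none → u ∈ F) ∧
      (∀ u c, u < n → L v = none → (Ew p u v ∨ Ew p v u) → L u = some c → c ∈ C) := by
    intro v
    by_cases hv : L v = none
    · obtain ⟨F, C, h1, h2, h3⟩ := hc v v.isLt hv
      exact ⟨F, C, h1, fun u hu _ => h2 u hu, fun u c hu _ => h3 u c hu⟩
    · exact ⟨∅, ∅, by simp, fun u _ h => absurd h hv, fun u c _ h => absurd h hv⟩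
  choose F C hFC hF hC using hch
  obtain ⟨c, hc1, hc2⟩ := Pool.Agent.helper94.TQ6.greedyC (V := Fin n) (fun v => β v)
    (fun v u => (Ew p v u ∨ Ew p u v) ∧ L v = none ∧ L u = none) C (by
      intro v
      refine ⟨Finset.univ.filter (fun u : Fin n => u.val ∈ F v), ?_, ?_⟩
      · refine le_trans (Nat.add_le_add_right ?_ _) (hFC v)
        rw [← Finset.card_map Fin.valEmbedding]
        refine Finset.card_le_card ?_
        intro t ht
        rw [Finset.mem_map] at ht
        obtain ⟨u, hu, rfl⟩ := ht
        exact (Finset.mem_filter.1 hu).2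
      · rintro u ⟨h3, h4, h5⟩ h6
        refine Finset.mem_filter.2 ⟨Finset.mem_univ _, hF v u u.isLt h4 ?_ h5⟩
        exact (hβ v u v.isLt u.isLt h3).2 h6)
  refine ⟨SimpleGraph.Coloring.mk (fun v : Fin n => (L v).getD (c v)) ?_⟩
  have key : ∀ u w : Fin n, Ew p u w → (L u).getD (c u) ≠ (L w).getD (c w) := by
    intro u w hE
    rcases hu : L u with _ | a
    · rcases hw : L w with _ | b
      · rw [Option.getD_none, Option.getD_none]
        rcases lt_or_gt_of_ne (hβ u w u.isLt w.isLt (Or.inl hE)).1 with h | h
        · exact (hc2 w u ⟨Or.inr hE, hw, hu⟩ h).symm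
        · exact hc2 u w ⟨Or.inl hE, hu, hw⟩ h
      · rw [Option.getD_none, Option.getD_some]
        intro h
        refine hc1 u ?_
        rw [h]
        exact hC u w b w.isLt hu (Or.inr hE) hw
    · rcases hw : L w with _ | b
      · rw [Option.getD_none, Option.getD_some]
        intro h
        refine hc1 w ?_
        rw [← h]
        exact hC w u a u.isLt hw (Or.inl hE) hu
      · rw [Option.getD_some, Option.getD_some]
        rintro rfl
        exact hL u w a w.isLt hE hu hw
  intro u w hadj
  rcases hadj with h | h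
  · exact key u w h
  · exact (key w u h).symm

end Pool.Agent.helper34.TQ6
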